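import Mathlib

/-!
# Definitions for a prime-representing polynomial in 8 variables
-/

open Finset

namespace Pool.Agent.Helper50.PR

/-- `N n i = ∏_{j<i} (1 - j n)`; the coefficient of `u^i` in `(1 + n u)^(1/n)` is `N n i / i!`. -/
def N (n i : ℕ) : ℤ := ∏ j ∈ range i, (1 - (j : ℤ) * n)

/-- Truncation of `A^l (1 + n/A)^(1/n)`. -/
noncomputable def T (n : ℕ) (A : ℝ) (l : ℕ) : ℝ :=
  ∑ i ∈ range (l + 1), (N n i : ℝ) / (i.factorial : ℝ) * A ^ (l - i)

/-- The polynomials with `chi k (2 a) = 2 x_k(a)`. -/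
noncomputable def chi : ℕ → Polynomial ℤ
  | 0 => 2
  | 1 => Polynomial.X
  | n + 2 => Polynomial.X * chi (n + 1) - chi n

/-- `(1 + n / A)^(1/n)`. -/
noncomputable def xi (n : ℕ) (A : ℝ) : ℝ := (1 + (n : ℝ) / A) ^ ((1 : ℝ) / n)

section Ring

variable {R : Type*} [CommRing R]

/-- If `X = a + (a^2-1) w` and `X^2 - (a^2-1) Y^2 = 1` then `Y^2 = qY a w`. -/
def qY (a w : R) : R := 1 + 2 * a * w + (a ^ 2 - 1) * w ^ 2

/-- `(a^2-1) E^2 + 1`. -/
def qF (a E : R) : R := (a ^ 2 - 1) * E ^ 2 + 1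

/-- second base: congruent to `a` mod `F` and to `1` mod `F - 1`. -/
def qb (a F : R) : R := a + F * (F - a)

/-- the inequality slot, with `A = 2 a` and `Z = 2 X`. -/
def qD (n A Z Q C : R) : R :=
  Z ^ 6 * A ^ 6 - A * (C * (Q - 3) * A ^ 3 - Q * Z ^ 3 * (A + n) ^ 3) ^ 2

open Polynomial in
/-- Eliminate the sign of a square root: if `d = s^2` then
`(elim p d)(x) = p (x + s) * p (x - s)`. -/
noncomputable def elim (p : R[X]) (d : R) : R[X] :=
  (∑ k ∈ range (p.natDegree + 1), if Even k then hasseDeriv k p * C (d ^ (k / 2)) else 0) ^ 2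
    - C d * (∑ k ∈ range (p.natDegree + 1),
        if Even k then 0 else hasseDeriv k p * C (d ^ (k / 2))) ^ 2

/-- product over all sign choices: `∏ (x ± √d₁ ± √d₂ ± ...)`. -/
noncomputable def sprod : List R → Polynomial R
  | [] => Polynomial.X
  | d :: l => elim (sprod l) d

/-- the radicands `v^2 A_i W^(2(i-1))`. -/
def scl (v W : R) : List R → List R
  | [] => []
  | A :: l => (v ^ 2 * A * W ^ (2 * l.length)) :: scl v W l

/-- `W = 1 + ∑ A_i^2`. -/
def wt (L : List R) : R := 1 + (L.map (fun A => A ^ 2)).sum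

/-- The Matijasevich-Robinson relation combining polynomial. -/
noncomputable def MR (L : List R) (S T D n : R) : R :=
  (sprod (scl (S ^ 2 * (2 * D - 1)) (wt L) L)).eval
    (S ^ 2 * n + T ^ 2 - S ^ 2 * (2 * D - 1) * (T ^ 2 + wt L ^ L.length))

end Ring

end Pool.Agent.Helper50.PR
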