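import Mathlib
import Pool.Agent.Helper50.PR.Defs
import Pool.Agent.Helper14.PR.Binom
import Pool.Agent.Helper14.PR.Crit
import Pool.Agent.Helper28.PR.Chi
import Pool.Agent.Helper28.PR.NumTh
import Pool.Agent.Helper30.PR.PellLemmas
import Pool.Agent.Helper39.PR.Pin
import Pool.Agent.Helper64.PR.ChainSound
import Pool.Agent.Helper66.PR.MRiff
import Pool.Agent.Helper73.PR.Ineq
import Pool.Agent.Helper73.PR.IneqComplete
import Pool.Agent.Helper75.PR.PR10
import Pool.Agent.Helper75.PR.PR12
import Pool.Agent.Helper90.PR.ChainComplete
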