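import Mathlib
import Pool.Agent.Helper50.PR.Defs
import Pool.Agent.Helper50.PR.Mods

open Finset

namespace Pool.Agent.Helper50.PR

section Sys

variable {R : Type*} [CommRing R] (v : Fin 8 → R)

/-- `n = t + 2`, the candidate prime. -/
def vn : R := v 0 + 2
/-- first Pell base -/
def va0 : R := 10000 * vn v ^ 4
/-- `a` -/
def va : R := vn v + 1 + v 1 * (va0 v - 1)
/-- `w` -/
def vw : R := v 2 + 1
/-- `Y^2` -/
def vY : R := qY (va v) (vw v)
/-- `F` -/
def vF : R := qF (va v) (vY v * (v 3 + 1))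
/-- `b` -/
def vb : R := qb (va v) (vF v)
/-- `w_H` -/
def vH : R := vw v + vF v * v 4
/-- `Q` -/
def vQ : R := 2 * va v + v 5
/-- `G` -/
def vG : R := vQ v ^ 3 - 3 * vQ v
/-- `C` -/
def vC : R := vn v + 1 + v 6 * (vG v - 2)
/-- `Z = 2 X` -/
def vZ : R := 2 * (va v + (va v ^ 2 - 1) * vw v)
/-- the five numbers required to be squares -/
def vL : List R :=
  [(vG v ^ 2 - 4) * vC v ^ 2 + 4, qY (vb v) (vH v), vF v, vY v, qF (va0 v) (va v)]
/-- the divisor -/
def vS : R := 2 * vY v
/-- the dividend -/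
def vT : R := 2 * vH v + 1 - vn v ^ 4
/-- the number required to be positive -/
def vD : R := qD (vn v) (2 * va v) (vZ v) (vQ v) (vC v)
/-- the combined relation -/
noncomputable def vM : R := MR (vL v) (vS v) (vT v) (vD v) (v 7)
/-- the value of the prime-representing polynomial -/
noncomputable def vP : R := vn v * (1 - (v 0 * vM v) ^ 2)

end Sys

section Map

variable {R S : Type*} [CommRing R] [CommRing S] (φ : R →+* S) (v : Fin 8 → R)

theorem map_vP : φ (vP v) = vP (fun i => φ (v i)) := by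
  have c2 : φ 2 = 2 := map_ofNat φ 2
  have c3 : φ 3 = 3 := map_ofNat φ 3
  have c4 : φ 4 = 4 := map_ofNat φ 4
  have c5 : φ 10000 = 10000 := map_ofNat φ 10000
  have hn : φ (vn v) = vn (fun i => φ (v i)) := by simp [vn, c2]
  have ha0 : φ (va0 v) = va0 (fun i => φ (v i)) := by simp [va0, hn, c5]
  have ha : φ (va v) = va (fun i => φ (v i)) := by simp [va, hn, ha0]
  have hw : φ (vw v) = vw (fun i => φ (v i)) := by simp [vw]
  have hY : φ (vY v) = vY (fun i => φ (v i)) := by simp [vY, qY, ha, hw, c2]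
  have hF : φ (vF v) = vF (fun i => φ (v i)) := by simp [vF, qF, ha, hY]
  have hb : φ (vb v) = vb (fun i => φ (v i)) := by simp [vb, qb, ha, hF]
  have hH : φ (vH v) = vH (fun i => φ (v i)) := by simp [vH, hw, hF]
  have hQ : φ (vQ v) = vQ (fun i => φ (v i)) := by simp [vQ, ha, c2]
  have hG : φ (vG v) = vG (fun i => φ (v i)) := by simp [vG, hQ, c3]
  have hC : φ (vC v) = vC (fun i => φ (v i)) := by simp [vC, hn, hG, c2]
  have hZ : φ (vZ v) = vZ (fun i => φ (v i)) := by simp [vZ, ha, hw, c2]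
  have hL : (vL v).map φ = vL (fun i => φ (v i)) := by
    simp [vL, qY, qF, hG, hC, hb, hH, hF, hY, ha0, ha, c2, c4]
  have hS : φ (vS v) = vS (fun i => φ (v i)) := by simp [vS, hY, c2]
  have hT : φ (vT v) = vT (fun i => φ (v i)) := by simp [vT, hH, hn, c2]
  have hD : φ (vD v) = vD (fun i => φ (v i)) := by simp [vD, qD, hn, ha, hZ, hQ, hC, c2, c3]
  have hM : φ (vM v) = vM (fun i => φ (v i)) := by
    unfold vM
    rw [MR_map, hL, hS, hT, hD]
  simp [vP, hn, hM]

end Map

end Pool.Agent.Helper50.PR
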