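import Mathlib
import Pool.Agent.Helper50.PR.Defs
import Pool.Agent.Helper50.PR.Mods
import Pool.Agent.Helper50.PR.Main

open Finset

namespace Pool.Agent.Helper50.PR

theorem xi_pow {n : ℕ} (hn : 1 ≤ n) {A : ℝ} (hA : 0 < A) : xi n A ^ n = 1 + n / A := by
  unfold xi
  have h0 : (0 : ℝ) ≤ 1 + (n : ℝ) / A := by positivity
  rw [← Real.rpow_natCast, ← Real.rpow_mul h0]
  have : (1 : ℝ) / n * n = 1 := by
    have : (n : ℝ) ≠ 0 := by positivity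
    field_simp
  rw [this, Real.rpow_one]

theorem xi_pos (n : ℕ) {A : ℝ} (hA : 0 < A) : 0 < xi n A := by
  unfold xi
  have h0 : (0 : ℝ) < 1 + (n : ℝ) / A := by positivity
  positivity

theorem one_le_xi (n : ℕ) {A : ℝ} (hA : 0 < A) : 1 ≤ xi n A := by
  unfold xi
  apply Real.one_le_rpow
  · have : (0 : ℝ) ≤ (n : ℝ) / A := by positivity
    linarith
  · positivity

/-- size facts about `z = 2 x_n(a)`, `Z = 2 x_{n^2}(a)` as integers -/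
theorem size_facts {n a : ℕ} (a1 : 1 < a) (hn : 3 ≤ n) :
    ((2 * (a : ℤ)) ^ 2 ≤ 2 * (Pell.xn a1 n : ℤ)) ∧
    (2 * (Pell.xn a1 n : ℤ) ≤ (2 * (a : ℤ)) ^ n) ∧
    ((2 * (Pell.xn a1 n : ℤ)) ^ n - n * (2 * (Pell.xn a1 n : ℤ)) ^ (n - 2) ≤
      2 * (Pell.xn a1 (n ^ 2) : ℤ)) ∧
    (2 * (Pell.xn a1 (n ^ 2) : ℤ) ≤ (2 * (Pell.xn a1 n : ℤ)) ^ n) := by
  have hx : a ^ n ≤ Pell.xn a1 n := Pell.xn_ge_a_pow a1 n
  have ha2 : 2 ≤ (a : ℤ) := by exact_mod_cast a1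
  have h1 : (2 * (a : ℤ)) ^ 2 ≤ 2 * (Pell.xn a1 n : ℤ) := by
    have h3 : a ^ 3 ≤ Pell.xn a1 n := le_trans (Nat.pow_le_pow_right (by omega) hn) hx
    have h3' : (a : ℤ) ^ 3 ≤ (Pell.xn a1 n : ℤ) := by exact_mod_cast h3
    nlinarith [sq_nonneg (a : ℤ)]
  have h2z : (2 : ℤ) ≤ 2 * (Pell.xn a1 n : ℤ) := by nlinarith
  have hb := chi_bounds n (by omega) (2 * (a : ℤ)) (by linarith)
  have hb2 := chi_bounds n (by omega) (2 * (Pell.xn a1 n : ℤ)) h2z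
  have hc : (chi n).eval (2 * (Pell.xn a1 n : ℤ)) = 2 * (Pell.xn a1 (n ^ 2) : ℤ) := by
    rw [← chi_eval_xn a1 n, chi_comp, ← pow_two, chi_eval_xn a1 (n ^ 2)]
  rw [hc] at hb2
  rw [chi_eval_xn a1 n] at hb
  exact ⟨h1, hb.2, hb2.1, hb2.2⟩

/-- the numerical consequences of `(10000 n^4)^n ≤ a` -/
theorem a_facts {n a : ℕ} (hn : 3 ≤ n) (ha : (10000 * n ^ 4) ^ n ≤ a) :
    10000 * n ^ 4 ≤ a ∧ ((100 : ℝ) ^ n * (n : ℝ) ^ (2 * n)) ^ 2 ≤ 2 * (a : ℝ) ∧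
    2 * (2 * (n : ℝ)) ^ (n + 1) / (2 * (a : ℝ)) ≤ 1 / (2 * (n.factorial : ℝ)) := by
  have hn1 : 1 ≤ n := by omega
  have hbase : 1 ≤ 10000 * n ^ 4 := by
    have := Nat.one_le_pow 4 n (by omega)
    omega
  have h1 : 10000 * n ^ 4 ≤ a := le_trans (Nat.le_self_pow (by omega) _) ha
  have haR : (10000 * (n : ℝ) ^ 4) ^ n ≤ a := by exact_mod_cast ha
  have e1 : ((100 : ℝ) ^ n * (n : ℝ) ^ (2 * n)) ^ 2 = (10000 * (n : ℝ) ^ 4) ^ n := by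
    have h1 : (10000 : ℝ) * (n : ℝ) ^ 4 = (100 * (n : ℝ) ^ 2) ^ 2 := by ring
    have h2 : (100 : ℝ) ^ n * (n : ℝ) ^ (2 * n) = (100 * (n : ℝ) ^ 2) ^ n := by
      rw [mul_pow, ← pow_mul]
    rw [h1, h2, ← pow_mul, ← pow_mul, mul_comm 2 n]
  have ha0 : (0 : ℝ) < a := by
    have : 0 < a := by omega
    exact_mod_cast this
  refine ⟨h1, by rw [e1]; linarith, ?_⟩
  have hf : (n.factorial : ℝ) ≤ (n : ℝ) ^ n := by exact_mod_cast Nat.factorial_le_pow n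
  have hf0 : (0 : ℝ) < n.factorial := by positivity
  have hnR : (3 : ℝ) ≤ n := by exact_mod_cast hn
  rw [div_le_div_iff₀ (by positivity) (by positivity)]
  -- 2 (2n)^(n+1) * (2 n!) ≤ 1 * (2a)
  have k1 : 2 * (2 * (n : ℝ)) ^ (n + 1) * (2 * (n.factorial : ℝ))
      ≤ 2 * (2 * (n : ℝ)) ^ (n + 1) * (2 * (n : ℝ) ^ n) := by
    gcongr
  have k2 : 2 * (2 * (n : ℝ)) ^ (n + 1) * (2 * (n : ℝ) ^ n) ≤ (10000 * (n : ℝ) ^ 4) ^ n := by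
    have : 2 * (2 * (n : ℝ)) ^ (n + 1) * (2 * (n : ℝ) ^ n) = (8 * n) * (2 * (n : ℝ) ^ 2) ^ n := by
      rw [pow_succ, mul_pow, mul_pow, ← pow_mul, two_mul n, pow_add]
      ring
    rw [this]
    have h8 : (8 * (n : ℝ)) ≤ (n ^ 2 * 100) ^ n := by
      have : (8 * (n : ℝ)) ≤ (n ^ 2 * 100) := by nlinarith
      have h' : (1 : ℝ) ≤ (n : ℝ) ^ 2 * 100 := by nlinarith
      calc (8 * (n : ℝ)) ≤ (n ^ 2 * 100) := this
        _ ≤ ((n : ℝ) ^ 2 * 100) ^ n := le_self_pow₀ h' (by omega)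
    calc (8 * (n : ℝ)) * (2 * (n : ℝ) ^ 2) ^ n ≤ (n ^ 2 * 100) ^ n * (2 * (n : ℝ) ^ 2) ^ n := by
          gcongr
      _ = (200 * (n : ℝ) ^ 4) ^ n := by rw [← mul_pow]; congr 1; ring
      _ ≤ (10000 * (n : ℝ) ^ 4) ^ n := by gcongr; norm_num
  linarith

end Pool.Agent.Helper50.PR
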