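import Mathlib
import Pool.Agent.Helper50.PR.Defs
import Pool.Agent.Helper50.PR.Mods
import Pool.Agent.Helper50.PR.Main
import Pool.Agent.Helper50.PR.Sound

open Finset

namespace Pool.Agent.Helper50.PR

theorem qY_pos {a w : ℤ} (ha : 1 ≤ a) (hw : 0 ≤ w) : 1 ≤ qY a w := by
  unfold qY
  have h1 : 0 ≤ a * w := by positivity
  have h2 : 0 ≤ (a ^ 2 - 1) * w ^ 2 := by
    apply mul_nonneg
    · nlinarith
    · positivity
  nlinarith

theorem qF_pos {a E : ℤ} (ha : 1 ≤ a) : 1 ≤ qF a E := by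
  unfold qF
  have h2 : 0 ≤ (a ^ 2 - 1) * E ^ 2 := by
    apply mul_nonneg
    · nlinarith
    · positivity
  linarith

theorem qb_ge {a E : ℤ} (ha : 2 ≤ a) (hE : 1 ≤ E) : a ≤ qb a (qF a E) := by
  unfold qb
  have h1 : a ≤ qF a E := by
    unfold qF
    have : 1 ≤ E ^ 2 := by nlinarith
    nlinarith [mul_le_mul_of_nonneg_left this (by nlinarith : 0 ≤ a ^ 2 - 1)]
  have h0 : 0 ≤ qF a E * (qF a E - a) := mul_nonneg (by linarith) (by linarith)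
  linarith

/-- positivity of all the system values -/
theorem sys_pos (v : Fin 8 → ℤ) (hv : ∀ i, 0 ≤ v i) (ht : 1 ≤ v 0) :
    3 ≤ vn v ∧ 2 ≤ va v ∧ 1 ≤ vw v ∧ 1 ≤ vY v ∧ 1 ≤ vF v ∧ 2 ≤ vb v ∧ 0 ≤ vH v ∧ 4 ≤ vQ v ∧
      4 ≤ vG v ∧ 0 ≤ vC v ∧ ∀ A ∈ vL v, 1 ≤ A := by
  have hn : 3 ≤ vn v := by
    unfold vn; linarith
  have ha0 : 2 ≤ va0 v := by
    unfold va0
    have : 1 ≤ vn v ^ 4 := one_le_pow₀ (by linarith)
    linarith
  have ha : 2 ≤ va v := by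
    unfold va
    have : 0 ≤ v 1 * (va0 v - 1) := mul_nonneg (hv 1) (by linarith)
    linarith
  have hw : 1 ≤ vw v := by
    unfold vw; linarith [hv 2]
  have hY : 1 ≤ vY v := qY_pos (by linarith) (by linarith)
  have hE : 1 ≤ vY v * (v 3 + 1) := by
    have : 1 ≤ v 3 + 1 := by linarith [hv 3]
    nlinarith
  have hF : 1 ≤ vF v := qF_pos (by linarith)
  have hb : 2 ≤ vb v := le_trans ha (qb_ge ha hE)
  have hH : 0 ≤ vH v := by
    unfold vH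
    have : 0 ≤ vF v * v 4 := mul_nonneg (by linarith) (hv 4)
    linarith
  have hQ : 4 ≤ vQ v := by
    unfold vQ; linarith [hv 5]
  have hG : 4 ≤ vG v := by
    unfold vG
    nlinarith [mul_nonneg (by linarith : 0 ≤ vQ v) (by nlinarith : 0 ≤ vQ v ^ 2 - 4)]
  have hC : 0 ≤ vC v := by
    unfold vC
    have : 0 ≤ v 6 * (vG v - 2) := mul_nonneg (hv 6) (by linarith)
    linarith
  refine ⟨hn, ha, hw, hY, hF, hb, hH, hQ, hG, hC, ?_⟩
  intro A hA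
  simp only [vL, List.mem_cons, List.not_mem_nil, or_false] at hA
  rcases hA with rfl | rfl | rfl | rfl | rfl
  · have : 0 ≤ (vG v ^ 2 - 4) * vC v ^ 2 := mul_nonneg (by nlinarith) (by positivity)
    linarith
  · exact qY_pos (by linarith) hH
  · exact hF
  · exact hY
  · exact qF_pos (by linarith)

theorem core_sound (u : Fin 8 → ℕ) (ht : 1 ≤ u 0) (hM : vM (fun i => (u i : ℤ)) = 0) :
    (u 0 + 2).Prime := by
  obtain ⟨v, hv⟩ : ∃ v : Fin 8 → ℤ, v = fun i => (u i : ℤ) := ⟨_, rfl⟩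
  rw [← hv] at hM
  have hvi : ∀ i, v i = (u i : ℤ) := fun i => by rw [hv]
  obtain ⟨hn, ha, hw, hY, hF, hb, hH, hQ, hG, hC, hL⟩ := sys_pos v
    (fun i => by rw [hvi]; positivity) (by rw [hvi]; exact_mod_cast ht)
  have hM' : ∃ s : ℕ, MR (vL v) (vS v) (vT v) (vD v) s = 0 := ⟨u 7, by rw [← hvi 7]; exact hM⟩
  have hS : vS v ≠ 0 := by unfold vS; intro h; linarith
  obtain ⟨hsq, hdvd, hpos⟩ := (MR_iff (vL v) hL (vS v) (vT v) (vD v) hS).1 hM'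
  have hsq1 : IsSquare (qF (va0 v) (va v)) := hsq _ (by simp [vL])
  have hsq2 : IsSquare (vY v) := hsq _ (by simp [vL])
  have hsq3 : IsSquare (vF v) := hsq _ (by simp [vL])
  have hsq4 : IsSquare (qY (vb v) (vH v)) := hsq _ (by simp [vL])
  have hsq5 : IsSquare ((vG v ^ 2 - 4) * vC v ^ 2 + 4) := hsq _ (by simp [vL])
  clear hM' hsq
  -- natural number versions
  obtain ⟨n, hnn⟩ : ∃ n : ℕ, n = u 0 + 2 := ⟨_, rfl⟩
  have hvn : vn v = (n : ℤ) := by rw [vn, hvi 0, hnn]; push_cast; ring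
  rw [← hnn]
  have hn3 : 3 ≤ n := by rw [hvn] at hn; exact_mod_cast hn
  obtain ⟨a, haa⟩ : ∃ a : ℕ, va v = (a : ℤ) := ⟨(va v).toNat, by rw [Int.toNat_of_nonneg]; linarith⟩
  obtain ⟨Q, hQQ⟩ : ∃ Q : ℕ, vQ v = (Q : ℤ) := ⟨(vQ v).toNat, by rw [Int.toNat_of_nonneg]; linarith⟩
  have a1 : 1 < a := by rw [haa] at ha; exact_mod_cast ha
  -- lower bound for a
  have hbase : (10000 * n ^ 4) ^ n ≤ a := by
    apply base_sound (α := u 1) hn3
    · rw [← haa, va, va0, hvn, hvi 1]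
    · rw [va0, hvn, haa] at hsq1
      exact hsq1
  obtain ⟨han, hAbig, htau⟩ := a_facts hn3 hbase
  have hn4 : n ^ 4 ≤ a := by omega
  have hna : n ≤ a := le_trans (Nat.le_self_pow (by norm_num) n) hn4
  -- the chain
  have hvw : vw v = ((u 2 + 1 : ℕ) : ℤ) := by rw [vw, hvi 2]; push_cast; ring
  have hve : v 3 + 1 = ((u 3 + 1 : ℕ) : ℤ) := by rw [hvi 3]; push_cast; ring
  have hv4 : v 4 = (u 4 : ℤ) := hvi 4
  have hYe : vY v = qY (a : ℤ) ((u 2 + 1 : ℕ) : ℤ) := by rw [vY, haa, hvw]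
  have hFe : vF v = qF (a : ℤ) (qY (a : ℤ) ((u 2 + 1 : ℕ) : ℤ) * ((u 3 + 1 : ℕ) : ℤ)) := by
    rw [vF, haa, hYe, hve]
  have hbe : vb v = qb (a : ℤ)
      (qF (a : ℤ) (qY (a : ℤ) ((u 2 + 1 : ℕ) : ℤ) * ((u 3 + 1 : ℕ) : ℤ))) := by
    rw [vb, haa, hFe]
  have hHe : vH v = ((u 2 + 1 : ℕ) : ℤ) +
      qF (a : ℤ) (qY (a : ℤ) ((u 2 + 1 : ℕ) : ℤ) * ((u 3 + 1 : ℕ) : ℤ)) * (u 4 : ℤ) := by
    rw [vH, hvw, hFe, hv4]
  obtain ⟨hodd, hX⟩ := chain_sound (n := n) (a := a) (w := u 2 + 1) (e := u 3 + 1) (y := u 4)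
    a1 hn3 hn4 (by omega) (by omega) (by rw [← hYe]; exact hsq2) (by rw [← hFe]; exact hsq3)
    (by rw [← hbe, ← hHe]; exact hsq4) (by
      have := hdvd
      unfold vS vT at this
      rw [hvn, hHe, hYe] at this
      exact this)
  have hZ : vZ v = 2 * (Pell.xn a1 (n ^ 2) : ℤ) := by
    rw [vZ, haa, hvw, hX]
  obtain ⟨s1, s2, s3, s4⟩ := size_facts a1 hn3
  -- C
  have hA1 : (vn v) * 100 ≤ 2 * va v := by
    rw [hvn, haa]
    have : n ≤ n ^ 4 := Nat.le_self_pow (by norm_num) n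
    have : n * 100 ≤ 2 * a := by omega
    exact_mod_cast this
  have hZ1 : 1 ≤ vZ v := by
    rw [hZ]
    have : 0 < Pell.xn a1 (n ^ 2) := Pell.x_pos a1 _
    have : (0 : ℤ) < Pell.xn a1 (n ^ 2) := by exact_mod_cast this
    linarith
  have hAQ : 2 * va v ≤ vQ v := by
    unfold vQ
    have : (0 : ℤ) ≤ v 5 := by rw [hvi 5]; positivity
    linarith
  have hCup : vC v ≤ (2 * va v) * vZ v ^ 3 :=
    C_upper hn (by linarith) hAQ hZ1 hC hpos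
  have hz0 : (0 : ℤ) ≤ 2 * (Pell.xn a1 n : ℤ) := by positivity
  have hCup2 : vC v ≤ ((2 * a : ℕ) : ℤ) ^ (3 * n ^ 2 + 1) := by
    refine le_trans hCup ?_
    rw [hZ, haa]
    have h1 : 2 * (Pell.xn a1 (n ^ 2) : ℤ) ≤ ((2 * (a : ℤ)) ^ n) ^ n :=
      le_trans s4 (pow_le_pow_left₀ hz0 s2 n)
    have h2 : (2 * (Pell.xn a1 (n ^ 2) : ℤ)) ^ 3 ≤ (((2 * (a : ℤ)) ^ n) ^ n) ^ 3 :=
      pow_le_pow_left₀ (by positivity) h1 3
    push_cast
    have h3 : (((2 * (a : ℤ)) ^ n) ^ n) ^ 3 * (2 * a) = (2 * (a : ℤ)) ^ (3 * n ^ 2 + 1) := by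
      rw [← pow_mul, ← pow_mul, pow_succ]
      congr 2
      ring
    rw [← h3, mul_comm]
    gcongr
  obtain ⟨g, g1, hGg, hCg⟩ := pin (n := n) (A := 2 * a) (Q := Q) (c := u 6) (G := vG v) (C := vC v)
    hn3 (by
      have : n ^ 2 ≤ n ^ 4 := Nat.pow_le_pow_right (by omega) (by norm_num)
      omega) (by
      rw [hQQ, haa] at hAQ
      exact_mod_cast hAQ) (by rw [vG, hQQ]) (by rw [vC, hvn, hvi 6]) hsq5 hCup2
  obtain ⟨c1, c2⟩ := yn_succ_bounds g1 n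
  -- real versions
  by_contra hnp
  have hcomp := crit_composite a1 hn3 hnp hna (Q : ℤ)
  have hA0 : (0 : ℝ) < 2 * (a : ℝ) := by
    have : 0 < a := by omega
    positivity
  have hGR : (2 * (g : ℝ)) = (Q : ℝ) ^ 3 - 3 * Q := by
    have : (2 * (g : ℤ)) = (Q : ℤ) ^ 3 - 3 * Q := by rw [← hGg, vG, hQQ]
    exact_mod_cast this
  have hg1 : (1 : ℝ) < g := by exact_mod_cast g1
  have hCR : ((vC v : ℤ) : ℝ) = (Pell.yn g1 (n + 1) : ℝ) := by rw [hCg]; simp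
  have key := ineq_sound (n := n) hn3 (A := 2 * (a : ℝ)) (z := 2 * (Pell.xn a1 n : ℝ))
    (Z := 2 * (Pell.xn a1 (n ^ 2) : ℝ)) (Q := (Q : ℝ)) (C := ((vC v : ℤ) : ℝ))
    (ζ := 2 * (Pell.xn a1 n : ℝ) * xi n (2 * a)) hAbig
    (by exact_mod_cast s1) (by exact_mod_cast s3) (by exact_mod_cast s4)
    (by
      rw [hQQ, haa] at hAQ
      exact_mod_cast hAQ)
    (by
      rw [hCR, ← hGR]
      have : ((2 * g - 1 : ℕ) : ℝ) ^ n ≤ (Pell.yn g1 (n + 1) : ℝ) := by exact_mod_cast c1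
      rwa [Nat.cast_sub (by omega), Nat.cast_mul, Nat.cast_two, Nat.cast_one] at this)
    (by
      rw [hCR, ← hGR]
      exact_mod_cast c2)
    (by
      have h1 : (0 : ℝ) < Pell.xn a1 n := by exact_mod_cast Pell.x_pos a1 n
      have h2 := xi_pos n hA0
      positivity)
    (by
      rw [mul_pow, xi_pow (by omega) hA0])
    (by
      have h1 : 0 < qD (n : ℤ) (2 * (a : ℤ)) (2 * (Pell.xn a1 (n ^ 2) : ℤ)) (Q : ℤ) (vC v) := by
        have := hpos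
        unfold vD at this
        rwa [hvn, haa, hZ, hQQ] at this
      have h2 : ((qD (n : ℤ) (2 * (a : ℤ)) (2 * (Pell.xn a1 (n ^ 2) : ℤ)) (Q : ℤ) (vC v) : ℤ) : ℝ)
          = qD (n : ℝ) (2 * (a : ℝ)) (2 * (Pell.xn a1 (n ^ 2) : ℝ)) (Q : ℝ) ((vC v : ℤ) : ℝ) := by
        unfold qD
        push_cast
        ring
      rw [← h2]
      exact_mod_cast h1)
  have h3 : 1 / (2 * (n.factorial : ℝ)) = 1 / (n.factorial : ℝ) - 1 / (2 * (n.factorial : ℝ)) := by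
    have : (n.factorial : ℝ) ≠ 0 := by positivity
    field_simp
    norm_num
  have h4 : |((Q : ℤ) : ℝ) - 1 / n - 2 * (Pell.xn a1 n : ℝ) * xi n (2 * a)| =
      |(Q : ℝ) - 1 / n - 2 * (Pell.xn a1 n : ℝ) * xi n (2 * a)| := by simp
  rw [h4] at hcomp
  linarith

end Pool.Agent.Helper50.PR
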