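import Mathlib
import Pool.Agent.Helper50.PR.Defs
import Pool.Agent.Helper50.PR.Mods
import Pool.Agent.Helper50.PR.Main
import Pool.Agent.Helper50.PR.Sound
import Pool.Agent.Helper50.PR.Sound2

open Finset

namespace Pool.Agent.Helper50.PR

theorem core_complete_aux {n : ℕ} (hp : n.Prime) (hn3 : 3 ≤ n) :
    ∃ α w e y q c : ℕ, ∀ v : Fin 8 → ℤ, v 0 + 2 = n → v 1 = α → v 2 + 1 = w → v 3 + 1 = e →
      v 4 = y → v 5 = q → v 6 = c → 1 ≤ w ∧ 1 ≤ e ∧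
        (∀ A ∈ vL v, IsSquare A) ∧ vS v ∣ vT v ∧ 0 < vD v := by
  have hodd : Odd n := hp.odd_of_ne_two (by omega)
  obtain ⟨a, α, haα, hsq1⟩ := base_complete hn3
  have hbase : (10000 * n ^ 4) ^ n ≤ a := base_sound hn3 haα hsq1
  obtain ⟨han, hAbig, htau⟩ := a_facts hn3 hbase
  have hn4 : n ^ 4 ≤ a := by omega
  have hna : n ≤ a := le_trans (Nat.le_self_pow (by norm_num) n) hn4
  have a1 : 1 < a := by omega
  obtain ⟨w, e, y, hw, he, hsq2, hsq3, hsq4, hdvd, hX⟩ := chain_complete a1 hn3 hodd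
  obtain ⟨Q, hQ⟩ := crit_prime a1 hp hna
  obtain ⟨s1, s2, s3, s4⟩ := size_facts a1 hn3
  have haR : (10000 : ℝ) ≤ a := by
    have : 1 ≤ n ^ 4 := Nat.one_le_pow _ _ (by omega)
    have : 10000 ≤ a := by omega
    exact_mod_cast this
  have hA0 : (0 : ℝ) < 2 * (a : ℝ) := by linarith
  have hx0 : (0 : ℝ) < Pell.xn a1 n := by exact_mod_cast Pell.x_pos a1 n
  have s1R : (2 * (a : ℝ)) ^ 2 ≤ 2 * (Pell.xn a1 n : ℝ) := by exact_mod_cast s1
  -- Q is large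
  have hQA : 2 * (a : ℤ) ≤ Q := by
    have hxi := one_le_xi n hA0
    have h1 : 2 * (Pell.xn a1 n : ℝ) ≤ 2 * (Pell.xn a1 n : ℝ) * xi n (2 * a) := by
      nlinarith
    have h2 := (abs_le.1 hQ).1
    have h3 : 1 / (2 * (n.factorial : ℝ)) ≤ 1 := by
      rw [div_le_one (by positivity)]
      have : (1 : ℝ) ≤ n.factorial := by exact_mod_cast Nat.factorial_pos n
      linarith
    have h4 : (0 : ℝ) ≤ 1 / (n : ℝ) := by positivity
    have h5 : 2 * (a : ℝ) ≤ (Q : ℝ) := by nlinarith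
    exact_mod_cast h5
  obtain ⟨q, hq⟩ : ∃ q : ℕ, Q = 2 * (a : ℤ) + q :=
    ⟨(Q - 2 * a).toNat, by rw [Int.toNat_of_nonneg (by linarith)]; ring⟩
  obtain ⟨QN, hQN⟩ : ∃ QN : ℕ, Q = (QN : ℤ) := ⟨2 * a + q, by rw [hq]; push_cast; ring⟩
  have hQ3 : 3 ≤ QN := by
    have : 2 * a ≤ QN := by rw [hQN] at hQA; exact_mod_cast hQA
    omega
  obtain ⟨g, g1, c, hg, hc, hsq5⟩ := pin_complete (n := n) hQ3
  obtain ⟨c1, c2⟩ := yn_succ_bounds g1 n
  have hGR : (2 * (g : ℝ)) = (QN : ℝ) ^ 3 - 3 * QN := by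
    have : (2 * (g : ℤ)) = (QN : ℤ) ^ 3 - 3 * QN := by rw [← hg]
    exact_mod_cast this
  have hQR : ((Q : ℤ) : ℝ) = (QN : ℝ) := by rw [hQN]; simp
  rw [hQR] at hQ
  have key := ineq_complete (n := n) hn3 (A := 2 * (a : ℝ)) (z := 2 * (Pell.xn a1 n : ℝ))
    (Z := 2 * (Pell.xn a1 (n ^ 2) : ℝ)) (Q := (QN : ℝ)) (C := (Pell.yn g1 (n + 1) : ℝ))
    (ζ := 2 * (Pell.xn a1 n : ℝ) * xi n (2 * a)) hAbig
    s1R (by exact_mod_cast s3) (by exact_mod_cast s4)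
    (by
      rw [hQN] at hQA
      exact_mod_cast hQA)
    (by
      rw [← hGR]
      have : ((2 * g - 1 : ℕ) : ℝ) ^ n ≤ (Pell.yn g1 (n + 1) : ℝ) := by exact_mod_cast c1
      rwa [Nat.cast_sub (by omega), Nat.cast_mul, Nat.cast_two, Nat.cast_one] at this)
    (by
      rw [← hGR]
      exact_mod_cast c2)
    (by
      have h2 := xi_pos n hA0
      positivity)
    (by rw [mul_pow, xi_pow (by omega) hA0])
    hQ
  have keyZ : 0 < qD (n : ℤ) (2 * (a : ℤ)) (2 * (Pell.xn a1 (n ^ 2) : ℤ)) (QN : ℤ)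
      (Pell.yn g1 (n + 1) : ℤ) := by
    have h2 : ((qD (n : ℤ) (2 * (a : ℤ)) (2 * (Pell.xn a1 (n ^ 2) : ℤ)) (QN : ℤ)
        (Pell.yn g1 (n + 1) : ℤ) : ℤ) : ℝ)
          = qD (n : ℝ) (2 * (a : ℝ)) (2 * (Pell.xn a1 (n ^ 2) : ℝ)) (QN : ℝ)
            (Pell.yn g1 (n + 1) : ℝ) := by
      unfold qD
      push_cast
      ring
    rw [← h2] at key
    exact_mod_cast key
  refine ⟨α, w, e, y, q, c, ?_⟩
  intro v h0 h1 h2 h3 h4 h5 h6
  have e0 : vn v = (n : ℤ) := by rw [vn, h0]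
  have e1 : va v = (a : ℤ) := by rw [va, va0, e0, h1, haα]
  have e2 : vw v = (w : ℤ) := by rw [vw, h2]
  have e3 : vY v = qY (a : ℤ) w := by rw [vY, e1, e2]
  have e4 : vF v = qF (a : ℤ) (qY (a : ℤ) w * e) := by rw [vF, e1, e3, h3]
  have e5 : vb v = qb (a : ℤ) (qF (a : ℤ) (qY (a : ℤ) w * e)) := by rw [vb, e1, e4]
  have e6 : vH v = (w : ℤ) + qF (a : ℤ) (qY (a : ℤ) w * e) * y := by rw [vH, e2, e4, h4]
  have e7 : vQ v = (QN : ℤ) := by rw [vQ, e1, h5, ← hQN, hq]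
  have e8 : vG v = (QN : ℤ) ^ 3 - 3 * QN := by rw [vG, e7]
  have e9 : vC v = (Pell.yn g1 (n + 1) : ℤ) := by rw [vC, e0, h6, e8, hc]
  have e10 : vZ v = 2 * (Pell.xn a1 (n ^ 2) : ℤ) := by rw [vZ, e1, e2, hX]
  refine ⟨hw, he, ?_, ?_, ?_⟩
  · intro A hA
    simp only [vL, List.mem_cons, List.not_mem_nil, or_false] at hA
    rcases hA with h | h | h | h | h
    · rw [h, e8, e9]; exact hsq5
    · rw [h, e5, e6]; exact hsq4
    · rw [h, e4]; exact hsq3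
    · rw [h, e3]; exact hsq2
    · rw [h, va0, e0, e1]; exact hsq1
  · rw [vS, vT, e3, e6, e0]; exact hdvd
  · rw [vD, e0, e1, e10, e7, e9]; exact keyZ

theorem indep {v v' : Fin 8 → ℤ} (h0 : v 0 = v' 0) (h1 : v 1 = v' 1) (h2 : v 2 = v' 2)
    (h3 : v 3 = v' 3) (h4 : v 4 = v' 4) (h5 : v 5 = v' 5) (h6 : v 6 = v' 6) :
    vL v = vL v' ∧ vS v = vS v' ∧ vT v = vT v' ∧ vD v = vD v' := by
  have en : vn v = vn v' := by rw [vn, vn, h0]
  have ea0 : va0 v = va0 v' := by rw [va0, va0, en]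
  have ea : va v = va v' := by rw [va, va, en, ea0, h1]
  have ew : vw v = vw v' := by rw [vw, vw, h2]
  have eY : vY v = vY v' := by rw [vY, vY, ea, ew]
  have eF : vF v = vF v' := by rw [vF, vF, ea, eY, h3]
  have eb : vb v = vb v' := by rw [vb, vb, ea, eF]
  have eH : vH v = vH v' := by rw [vH, vH, ew, eF, h4]
  have eQ : vQ v = vQ v' := by rw [vQ, vQ, ea, h5]
  have eG : vG v = vG v' := by rw [vG, vG, eQ]
  have eC : vC v = vC v' := by rw [vC, vC, en, eG, h6]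
  have eZ : vZ v = vZ v' := by rw [vZ, vZ, ea, ew]
  refine ⟨?_, ?_, ?_, ?_⟩
  · rw [vL, vL, eG, eC, eb, eH, eF, eY, ea0, ea]
  · rw [vS, vS, eY]
  · rw [vT, vT, eH, en]
  · rw [vD, vD, en, ea, eZ, eQ, eC]

theorem core_complete {n : ℕ} (hp : n.Prime) (hn3 : 3 ≤ n) :
    ∃ u : Fin 8 → ℕ, u 0 + 2 = n ∧ vM (fun i => (u i : ℤ)) = 0 := by
  obtain ⟨α, w, e, y, q, c, H⟩ := core_complete_aux hp hn3
  have hwe : 1 ≤ w ∧ 1 ≤ e := by
    obtain ⟨h1, h2, -⟩ := H ![(n : ℤ) - 2, α, w - 1, e - 1, y, q, c, 0]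
      (by simp) (by simp) (by simp) (by simp) (by simp) (by simp) (by simp)
    exact ⟨h1, h2⟩
  have hn2 : ((n - 2 : ℕ) : ℤ) + 2 = n := by push_cast [Nat.cast_sub (by omega : 2 ≤ n)]; ring
  have hw2 : ((w - 1 : ℕ) : ℤ) + 1 = w := by push_cast [Nat.cast_sub hwe.1]; ring
  have he2 : ((e - 1 : ℕ) : ℤ) + 1 = e := by push_cast [Nat.cast_sub hwe.2]; ring
  -- the values do not depend on the last coordinate
  obtain ⟨V, HV⟩ : ∃ V : ℕ → Fin 8 → ℕ, ∀ s, V s 0 = n - 2 ∧ V s 1 = α ∧ V s 2 = w - 1 ∧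
      V s 3 = e - 1 ∧ V s 4 = y ∧ V s 5 = q ∧ V s 6 = c ∧ V s 7 = s :=
    ⟨fun s => ![n - 2, α, w - 1, e - 1, y, q, c, s],
      fun s => ⟨rfl, rfl, rfl, rfl, rfl, rfl, rfl, rfl⟩⟩
  have hV : ∀ s, (∀ A ∈ vL (fun i => (V s i : ℤ)), IsSquare A) ∧
      vS (fun i => (V s i : ℤ)) ∣ vT (fun i => (V s i : ℤ)) ∧
      0 < vD (fun i => (V s i : ℤ)) := by
    intro s
    obtain ⟨g0, g1, g2, g3, g4, g5, g6, g7⟩ := HV s
    refine (H (fun i => (V s i : ℤ)) ?_ ?_ ?_ ?_ ?_ ?_ ?_).2.2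
    · simp only [g0]; exact hn2
    · simp only [g1]
    · simp only [g2]; exact hw2
    · simp only [g3]; exact he2
    · simp only [g4]
    · simp only [g5]
    · simp only [g6]
  have hpos := sys_pos (fun i => (V 0 i : ℤ)) (fun i => by positivity) (by
    simp only [(HV 0).1]
    have : 1 ≤ n - 2 := by omega
    exact_mod_cast this)
  have hS : vS (fun i => (V 0 i : ℤ)) ≠ 0 := by
    unfold vS
    have := hpos.2.2.2.1
    intro h
    linarith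
  obtain ⟨s, hs⟩ := (MR_iff (vL (fun i => (V 0 i : ℤ))) hpos.2.2.2.2.2.2.2.2.2.2
    (vS (fun i => (V 0 i : ℤ))) (vT (fun i => (V 0 i : ℤ))) (vD (fun i => (V 0 i : ℤ))) hS).2
    ⟨(hV 0).1, (hV 0).2.1, (hV 0).2.2⟩
  obtain ⟨g0, g1, g2, g3, g4, g5, g6, g7⟩ := HV s
  obtain ⟨k0, k1, k2, k3, k4, k5, k6, k7⟩ := HV 0
  refine ⟨V s, ?_, ?_⟩
  · rw [g0]
    omega
  · obtain ⟨i1, i2, i3, i4⟩ := indep (v := fun i => (V s i : ℤ)) (v' := fun i => (V 0 i : ℤ))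
      (by simp only [g0, k0]) (by simp only [g1, k1]) (by simp only [g2, k2])
      (by simp only [g3, k3]) (by simp only [g4, k4]) (by simp only [g5, k5])
      (by simp only [g6, k6])
    rw [vM, i1, i2, i3, i4]
    simp only [g7]
    exact hs

end Pool.Agent.Helper50.PR
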